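import Mathlib
import Pool.Agent.Helper90.NoTwoMultiplesDefs

/-!
# Definitions for the exact formula of `f n`

`f n` is the largest size of a subset of `[1,n]` in which no element divides two other elements.
-/

open Finset

namespace Pool.Agent.Helper40.NTM

/-- `hh q = log₃ q + 1 + ⌊(log₂ q)/2⌋ + [log₂ q odd and q ≥ 2·3^(log₃ q)]` (and `hh 0 = 0`):
the largest size of an admissible set of numbers `2^i 3^j ≤ q`. -/
def hh (q : ℕ) : ℕ :=
  if q = 0 then 0 else
    Nat.log 3 q + 1 + Nat.log 2 q / 2 +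
      (if Nat.log 2 q % 2 = 1 ∧ 2 * 3 ^ Nat.log 3 q ≤ q then 1 else 0)

/-- `q` lies in `[4^(a+1), 5·4^a) ∩ [10·3^b, 12·3^b)` for some `a, b`. -/
def InD (q : ℕ) : Prop :=
  ∃ a b : ℕ, 4 ^ (a + 1) ≤ q ∧ q < 5 * 4 ^ a ∧ 10 * 3 ^ b ≤ q ∧ q < 12 * 3 ^ b

noncomputable instance : DecidablePred InD := fun _ => Classical.propDecidable _

end Pool.Agent.Helper40.NTM
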