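import Mathlib
import Pool.Agent.Helper40.NTM.Defs

/-!
# 2-adic and 3-adic valuations and the part of a number prime to 6
-/

open Finset

namespace Pool.Agent.Helper40.NTM

/-- exponent of 2 -/
def i2 (v : ℕ) : ℕ := v.factorization 2

/-- exponent of 3 -/
def j3 (v : ℕ) : ℕ := v.factorization 3

/-- the part of `v` prime to 6 -/
def core (v : ℕ) : ℕ := v / (2 ^ i2 v * 3 ^ j3 v)

lemma cop6 {m : ℕ} (h : Nat.Coprime 6 m) : m ≠ 0 ∧ ¬ 2 ∣ m ∧ ¬ 3 ∣ m := by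
  have h2 : Nat.Coprime 2 m := Nat.Coprime.coprime_dvd_left (by norm_num) h
  have h3 : Nat.Coprime 3 m := Nat.Coprime.coprime_dvd_left (by norm_num) h
  refine ⟨?_, ?_, ?_⟩
  · rintro rfl
    simp at h
  · exact (Nat.Prime.coprime_iff_not_dvd Nat.prime_two).mp h2
  · exact (Nat.Prime.coprime_iff_not_dvd Nat.prime_three).mp h3

lemma cop6_of {m : ℕ} (h2 : ¬ 2 ∣ m) (h3 : ¬ 3 ∣ m) : Nat.Coprime 6 m := by
  have e : (6 : ℕ) = 2 * 3 := by norm_num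
  rw [e]
  exact Nat.Coprime.mul_left ((Nat.Prime.coprime_iff_not_dvd Nat.prime_two).mpr h2)
    ((Nat.Prime.coprime_iff_not_dvd Nat.prime_three).mpr h3)

lemma uniq_i {i j m : ℕ} (h : Nat.Coprime 6 m) : i2 (2 ^ i * 3 ^ j * m) = i := by
  obtain ⟨h0, h2, h3⟩ := cop6 h
  unfold i2
  rw [Nat.factorization_mul (by positivity) h0, Nat.factorization_mul (by positivity) (by positivity),
    Nat.factorization_pow, Nat.factorization_pow]
  simp [Nat.prime_two.factorization, Nat.prime_three.factorization,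
    Nat.factorization_eq_zero_of_not_dvd h2]

lemma uniq_j {i j m : ℕ} (h : Nat.Coprime 6 m) : j3 (2 ^ i * 3 ^ j * m) = j := by
  obtain ⟨h0, h2, h3⟩ := cop6 h
  unfold j3
  rw [Nat.factorization_mul (by positivity) h0, Nat.factorization_mul (by positivity) (by positivity),
    Nat.factorization_pow, Nat.factorization_pow]
  simp [Nat.prime_two.factorization, Nat.prime_three.factorization,
    Nat.factorization_eq_zero_of_not_dvd h3]

lemma uniq_c {i j m : ℕ} (h : Nat.Coprime 6 m) : core (2 ^ i * 3 ^ j * m) = m := by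
  unfold core
  rw [uniq_i h, uniq_j h]
  exact Nat.mul_div_cancel_left _ (by positivity)

lemma spec {v : ℕ} (hv : v ≠ 0) : 2 ^ i2 v * 3 ^ j3 v * core v = v ∧ Nat.Coprime 6 (core v) := by
  obtain ⟨a, c, hc, rfl⟩ := Nat.exists_eq_pow_mul_and_not_dvd hv 2 (by norm_num)
  have hc0 : c ≠ 0 := by rintro rfl; simp at hv
  obtain ⟨b, m, hm, rfl⟩ := Nat.exists_eq_pow_mul_and_not_dvd hc0 3 (by norm_num)
  have h6 : Nat.Coprime 6 m := cop6_of (fun h => hc (Dvd.dvd.mul_left h _)) hm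
  rw [← mul_assoc, uniq_i h6, uniq_j h6, uniq_c h6]
  exact ⟨rfl, h6⟩

lemma core_pos {v : ℕ} (hv : v ≠ 0) : 0 < core v :=
  Nat.pos_of_ne_zero (cop6 (spec hv).2).1

lemma core_le {v : ℕ} (hv : v ≠ 0) : core v ≤ v := by
  conv_rhs => rw [← (spec hv).1]
  exact Nat.le_mul_of_pos_left _ (by positivity)

lemma mul_two {v : ℕ} (hv : v ≠ 0) :
    i2 (2 * v) = i2 v + 1 ∧ j3 (2 * v) = j3 v ∧ core (2 * v) = core v := by
  obtain ⟨h1, h2⟩ := spec hv
  have e : 2 * v = 2 ^ (i2 v + 1) * 3 ^ j3 v * core v := by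
    conv_lhs => rw [← h1]
    ring
  rw [e, uniq_i h2, uniq_j h2, uniq_c h2]
  exact ⟨rfl, rfl, rfl⟩

lemma mul_three {v : ℕ} (hv : v ≠ 0) :
    i2 (3 * v) = i2 v ∧ j3 (3 * v) = j3 v + 1 ∧ core (3 * v) = core v := by
  obtain ⟨h1, h2⟩ := spec hv
  have e : 3 * v = 2 ^ (i2 v) * 3 ^ (j3 v + 1) * core v := by
    conv_lhs => rw [← h1]
    ring
  rw [e, uniq_i h2, uniq_j h2, uniq_c h2]
  exact ⟨rfl, rfl, rfl⟩

lemma mul_cop {v r : ℕ} (hv : v ≠ 0) (hr : Nat.Coprime 6 r) :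
    i2 (r * v) = i2 v ∧ j3 (r * v) = j3 v ∧ core (r * v) = r * core v := by
  obtain ⟨h1, h2⟩ := spec hv
  have e : r * v = 2 ^ (i2 v) * 3 ^ (j3 v) * (r * core v) := by
    conv_lhs => rw [← h1]
    ring
  have h3 : Nat.Coprime 6 (r * core v) := Nat.Coprime.mul_right hr h2
  rw [e, uniq_i h3, uniq_j h3, uniq_c h3]
  exact ⟨rfl, rfl, rfl⟩

lemma two_dvd {v : ℕ} (h : 1 ≤ i2 v) : 2 ∣ v := by
  by_contra hc
  have := Nat.factorization_eq_zero_of_not_dvd hc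
  unfold i2 at h
  omega

lemma i2_pos {v : ℕ} (hv : v ≠ 0) (h : 2 ∣ v) : 1 ≤ i2 v := by
  obtain ⟨w, rfl⟩ := h
  have hw : w ≠ 0 := by rintro rfl; simp at hv
  have := (mul_two hw).1
  omega

lemma three_dvd {v : ℕ} (h : 1 ≤ j3 v) : 3 ∣ v := by
  by_contra hc
  have := Nat.factorization_eq_zero_of_not_dvd hc
  unfold j3 at h
  omega

/-! ### logarithms -/

lemma log5 {q : ℕ} (h : 5 ≤ q) :
    Nat.log 2 (q / 5) + 2 = Nat.log 2 q ∨ Nat.log 2 (q / 5) + 3 = Nat.log 2 q := by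
  set k := Nat.log 2 (q / 5) with hk
  have h0 : q / 5 ≠ 0 := by omega
  have h1 : 2 ^ k ≤ q / 5 := Nat.pow_log_le_self 2 h0
  have h2 : q / 5 < 2 ^ (k + 1) := Nat.lt_pow_succ_log_self (by norm_num) _
  have h3 : 5 * 2 ^ k ≤ q := by omega
  have h4 : q < 5 * 2 ^ (k + 1) := by omega
  rcases lt_or_ge q (2 ^ (k + 3)) with h5 | h5
  · left
    symm
    rw [Nat.log_eq_iff (Or.inr ⟨by norm_num, by omega⟩)]
    refine ⟨?_, h5⟩
    calc 2 ^ (k + 2) = 4 * 2 ^ k := by ring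
      _ ≤ 5 * 2 ^ k := by omega
      _ ≤ q := h3
  · right
    symm
    rw [Nat.log_eq_iff (Or.inr ⟨by norm_num, by omega⟩)]
    refine ⟨h5, ?_⟩
    calc q < 5 * 2 ^ (k + 1) := h4
      _ ≤ 8 * 2 ^ (k + 1) := by omega
      _ = 2 ^ (k + 3 + 1) := by ring

lemma log7 {q : ℕ} (h : 7 ≤ q) :
    Nat.log 2 (q / 7) + 2 = Nat.log 2 q ∨ Nat.log 2 (q / 7) + 3 = Nat.log 2 q := by
  set k := Nat.log 2 (q / 7) with hk
  have h0 : q / 7 ≠ 0 := by omega
  have h1 : 2 ^ k ≤ q / 7 := Nat.pow_log_le_self 2 h0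
  have h2 : q / 7 < 2 ^ (k + 1) := Nat.lt_pow_succ_log_self (by norm_num) _
  have h3 : 7 * 2 ^ k ≤ q := by omega
  have h4 : q < 7 * 2 ^ (k + 1) := by omega
  rcases lt_or_ge q (2 ^ (k + 3)) with h5 | h5
  · left
    symm
    rw [Nat.log_eq_iff (Or.inr ⟨by norm_num, by omega⟩)]
    refine ⟨?_, h5⟩
    calc 2 ^ (k + 2) = 4 * 2 ^ k := by ring
      _ ≤ 7 * 2 ^ k := by omega
      _ ≤ q := h3
  · right
    symm
    rw [Nat.log_eq_iff (Or.inr ⟨by norm_num, by omega⟩)]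
    refine ⟨h5, ?_⟩
    calc q < 7 * 2 ^ (k + 1) := h4
      _ ≤ 8 * 2 ^ (k + 1) := by omega
      _ = 2 ^ (k + 3 + 1) := by ring

lemma log25 {q : ℕ} (h : 25 ≤ q) (h3 : Nat.log 2 (q / 5) + 3 = Nat.log 2 q) :
    Nat.log 2 (q / 5 / 5) + 5 = Nat.log 2 q := by
  set k := Nat.log 2 (q / 5) with hk
  have h0 : q / 5 ≠ 0 := by omega
  have h2 : q / 5 < 2 ^ (k + 1) := Nat.lt_pow_succ_log_self (by norm_num) _
  have h4 : q < 5 * 2 ^ (k + 1) := by omega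
  have h1 : 2 ^ (k + 3) ≤ q := by rw [h3]; exact Nat.pow_log_le_self 2 (by omega)
  have hk2 : 2 ≤ k := by
    by_contra hc
    have : k + 1 ≤ 2 := by omega
    have := Nat.pow_le_pow_right (show 0 < 2 by norm_num) this
    omega
  clear_value k
  obtain ⟨l, rfl⟩ : ∃ l, k = l + 2 := ⟨k - 2, by omega⟩
  have e1 : 2 ^ (l + 2 + 3) = 32 * 2 ^ l := by ring
  have e2 : 2 ^ (l + 2 + 1) = 8 * 2 ^ l := by ring
  rw [e1] at h1
  rw [e2] at h4
  have : Nat.log 2 (q / 5 / 5) = l := by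
    rw [Nat.log_eq_iff (Or.inr ⟨by norm_num, by omega⟩)]
    have e3 : 2 ^ (l + 1) = 2 * 2 ^ l := by ring
    rw [e3]
    omega
  omega

end Pool.Agent.Helper40.NTM
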