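import Mathlib
import Pool.Agent.Helper40.NTM.Basic

/-!
# The extremal set
-/

open Finset
open Pool.Agent.Helper90.NoTwoMultiples

namespace Pool.Agent.Helper40.NTM

/-- `⌊log₂ (n / core v)⌋` -/
def KK (n v : ℕ) : ℕ := Nat.log 2 (n / core v)

/-- the first approximation of the extremal set -/
def A0 (n v : ℕ) : Prop :=
  1 ≤ v ∧ v ≤ n ∧
    ((i2 v % 2 = KK n v % 2 ∧ n < 4 * v) ∨
     (i2 v % 2 ≠ KK n v % 2 ∧ 1 ≤ i2 v ∧ n < 6 * v ∧ 2 * v ≤ n) ∨
     (i2 v = 0 ∧ KK n v % 2 = 1 ∧ n < 3 * v))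

/-- the conflicts of the first approximation -/
def CC (n v : ℕ) : Prop :=
  n < 6 * v ∧ 5 * v ≤ n ∧ 1 ≤ i2 v ∧ i2 v % 2 ≠ KK n v % 2 ∧ KK n (5 * v) % 2 ≠ KK n v % 2

/-- the elements that are removed -/
def LL (n z : ℕ) : Prop := ∃ v, CC n v ∧ z = 5 * v

/-- the extremal set -/
def AA (n w : ℕ) : Prop :=
  (A0 n w ∧ ¬ LL n w ∧ ¬ (LL n (2 * w) ∧ 1 ≤ i2 w)) ∨ LL n (4 * w) ∨ (LL n (6 * w) ∧ 1 ≤ i2 w)

lemma LL_le {n z : ℕ} (h : LL n z) : z ≤ n := by
  obtain ⟨v, hv, rfl⟩ := h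
  exact hv.2.1

lemma LL5 {n v : ℕ} (h : LL n (5 * v)) : CC n v := by
  obtain ⟨w, hw, e⟩ := h
  have : v = w := by omega
  rwa [this]

lemma AA_le {n w : ℕ} (h : AA n w) : w ≤ n := by
  rcases h with ⟨h, -, -⟩ | h | ⟨h, -⟩
  · exact h.2.1
  · have := LL_le h; omega
  · have := LL_le h; omega

lemma CC_pos {n v : ℕ} (h : CC n v) : v ≠ 0 := by
  rintro rfl
  have := h.1
  omega

lemma AA_pos {n w : ℕ} (h : AA n w) : w ≠ 0 := by
  rcases h with ⟨h, -, -⟩ | ⟨v, h, e⟩ | ⟨⟨v, h, e⟩, -⟩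
  · have := h.1; omega
  · have := CC_pos h; omega
  · have := CC_pos h; omega

/-- large elements of the set are in the first approximation and not removed -/
lemma big {n x : ℕ} (hx : n < 4 * x) (h : AA n x) :
    A0 n x ∧ ¬ LL n x ∧ ¬ (LL n (2 * x) ∧ 1 ≤ i2 x) := by
  rcases h with h | h | ⟨h, -⟩
  · exact h
  · have := LL_le h; omega
  · have := LL_le h; omega

lemma KK2 {n v : ℕ} (hv : v ≠ 0) : KK n (2 * v) = KK n v := by
  unfold KK; rw [(mul_two hv).2.2]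

lemma KK3 {n v : ℕ} (hv : v ≠ 0) : KK n (3 * v) = KK n v := by
  unfold KK; rw [(mul_three hv).2.2]

lemma cop5 : Nat.Coprime 6 5 := by norm_num
lemma cop7 : Nat.Coprime 6 7 := by norm_num

lemma KK5 {n v : ℕ} (hv : v ≠ 0) : KK n (5 * v) = Nat.log 2 (n / core v / 5) := by
  unfold KK; rw [(mul_cop hv cop5).2.2, Nat.div_div_eq_div_mul, mul_comm 5]

lemma KK7 {n v : ℕ} (hv : v ≠ 0) : KK n (7 * v) = Nat.log 2 (n / core v / 7) := by
  unfold KK; rw [(mul_cop hv cop7).2.2, Nat.div_div_eq_div_mul, mul_comm 7]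

lemma le_q {n v r : ℕ} (hv : v ≠ 0) (h : r * v ≤ n) : r ≤ n / core v := by
  rw [Nat.le_div_iff_mul_le (core_pos hv)]
  exact (Nat.mul_le_mul_left r (core_le hv)).trans h

lemma KK5' {n v : ℕ} (hv : v ≠ 0) (h : 5 * v ≤ n) :
    KK n (5 * v) + 2 = KK n v ∨ KK n (5 * v) + 3 = KK n v := by
  rw [KK5 hv]
  exact log5 (le_q hv h)

lemma KK7' {n v : ℕ} (hv : v ≠ 0) (h : 7 * v ≤ n) :
    KK n (7 * v) + 2 = KK n v ∨ KK n (7 * v) + 3 = KK n v := by
  rw [KK7 hv]
  exact log7 (le_q hv h)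

lemma KK25 {n v : ℕ} (hv : v ≠ 0) (h : 25 * v ≤ n) (h3 : KK n (5 * v) + 3 = KK n v) :
    KK n (25 * v) + 5 = KK n v := by
  have e : 25 * v = 5 * (5 * v) := by ring
  rw [e, KK5 (by omega), (mul_cop hv cop5).2.2, mul_comm 5 (core v), ← Nat.div_div_eq_div_mul]
  rw [KK5 hv] at h3
  exact log25 (le_q hv h) h3

/-- P-class element -/
lemma caseP {n w : ℕ} (hw : w ≠ 0) (h1 : i2 w % 2 = KK n w % 2) (h2 : n < 4 * w) (q : ℕ)
    (hq : 2 ≤ q) (h : AA n (q * w)) : q = 3 := by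
  have h3 := AA_le h
  have h4 : q < 4 := by
    by_contra hc
    have : 4 * w ≤ q * w := Nat.mul_le_mul_right w (by omega)
    omega
  interval_cases q
  · exfalso
    obtain ⟨⟨-, -, h5⟩, -, -⟩ := big (by omega) h
    have h6 := (mul_two hw).1
    have h7 := KK2 (n := n) hw
    rw [h6, h7] at h5
    omega
  · rfl

/-- exponent 0 element -/
lemma caseO {n w : ℕ} (h2 : n < 3 * w) (q : ℕ) (hq : 2 ≤ q) (h : AA n (q * w)) : q = 2 := by
  have h3 := AA_le h
  have h4 : q < 3 := by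
    by_contra hc
    have : 3 * w ≤ q * w := Nat.mul_le_mul_right w (by omega)
    omega
  omega

/-- N-class element -/
lemma caseN {n w : ℕ} (hw : w ≠ 0) (h1 : i2 w % 2 ≠ KK n w % 2) (h2 : 1 ≤ i2 w) (h3 : n < 6 * w)
    (q : ℕ) (hq : 2 ≤ q) (h : AA n (q * w)) : q = 2 := by
  have h3' := AA_le h
  have h4 : q < 6 := by
    by_contra hc
    have : 6 * w ≤ q * w := Nat.mul_le_mul_right w (by omega)
    omega
  interval_cases q
  · rfl
  · exfalso
    obtain ⟨⟨-, -, h5⟩, -, -⟩ := big (by omega) h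
    have h6 := (mul_three hw).1
    have h7 := KK3 (n := n) hw
    rw [h6, h7] at h5
    omega
  · exfalso
    obtain ⟨⟨-, -, h5⟩, -, -⟩ := big (by omega) h
    have e : 4 * w = 2 * (2 * w) := by ring
    have hw2 : 2 * w ≠ 0 := by omega
    have h6 := (mul_two hw).1
    have h6' := (mul_two hw2).1
    have h7 := KK2 (n := n) hw
    have h7' := KK2 (n := n) hw2
    rw [e, h6', h6, h7', h7] at h5
    omega
  · exfalso
    obtain ⟨⟨-, -, h5⟩, h8, -⟩ := big (by omega) h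
    have h6 := (mul_cop hw cop5).1
    rw [h6] at h5
    apply h8
    refine ⟨w, ⟨h3, h3', h2, h1, ?_⟩, rfl⟩
    omega

/-- new element `u * 5` with `4 * u` a conflict -/
lemma caseD {n u : ℕ} (hC : CC n (4 * u)) (q : ℕ) (hq : 2 ≤ q) (h : AA n (q * (5 * u))) :
    q = 3 := by
  have h3' := AA_le h
  obtain ⟨h1, h2, -⟩ := id hC
  have hu : u ≠ 0 := by rintro rfl; omega
  have h4 : q < 5 := by
    by_contra hc
    have : 5 * (5 * u) ≤ q * (5 * u) := Nat.mul_le_mul_right _ (by omega)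
    omega
  interval_cases q
  · exfalso
    obtain ⟨-, -, h5⟩ := big (by omega) h
    apply h5
    refine ⟨⟨4 * u, hC, by ring⟩, ?_⟩
    exact i2_pos (by omega) (Dvd.intro _ rfl)
  · rfl
  · exfalso
    obtain ⟨-, h5, -⟩ := big (by omega) h
    apply h5
    exact ⟨4 * u, hC, by ring⟩

/-- new element `u * 5` with `6 * u` a conflict -/
lemma caseE {n u : ℕ} (hC : CC n (6 * u)) (hi : 1 ≤ i2 (5 * u)) (q : ℕ) (hq : 2 ≤ q)
    (h : AA n (q * (5 * u))) : q = 2 := by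
  have h3' := AA_le h
  have hC' := hC
  obtain ⟨h1, h2, h6, h7, h8⟩ := hC
  have hu : u ≠ 0 := by rintro rfl; omega
  have h4 : q < 8 := by
    by_contra hc
    have : 8 * (5 * u) ≤ q * (5 * u) := Nat.mul_le_mul_right _ (by omega)
    omega
  have e6 : 6 * u = 2 * (3 * u) := by ring
  have hi5 : i2 (5 * u) = i2 u := (mul_cop hu cop5).1
  have hi6 : i2 (6 * u) = i2 u + 1 := by
    rw [e6, (mul_two (by omega)).1, (mul_three hu).1]
  have hK6 : KK n (6 * u) = KK n u := by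
    rw [e6, KK2 (by omega), KK3 hu]
  have hK30 : KK n (5 * (6 * u)) = KK n (5 * u) := by
    have e : 5 * (6 * u) = 2 * (3 * (5 * u)) := by ring
    rw [e, KK2 (by omega), KK3 (by omega)]
  rw [hi6, hK6] at h7
  rw [hK30, hK6] at h8
  have h9 := KK5' (n := n) hu (by omega)
  have h10 : KK n (5 * u) + 3 = KK n u := by omega
  interval_cases q
  · rfl
  · exfalso
    obtain ⟨-, -, h5⟩ := big (by omega) h
    apply h5
    refine ⟨⟨6 * u, hC', by ring⟩, ?_⟩
    rw [(mul_three (by omega)).1]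
    exact hi
  · exfalso
    obtain ⟨⟨-, -, h5⟩, -, -⟩ := big (by omega) h
    have e : 4 * (5 * u) = 2 * (2 * (5 * u)) := by ring
    have a1 : i2 (4 * (5 * u)) = i2 u + 2 := by
      rw [e, (mul_two (by omega)).1, (mul_two (by omega)).1, hi5]
    have a2 : KK n (4 * (5 * u)) = KK n (5 * u) := by
      rw [e, KK2 (by omega), KK2 (by omega)]
    rw [a1, a2] at h5
    omega
  · exfalso
    obtain ⟨⟨-, -, h5⟩, -, -⟩ := big (by omega) h
    have a1 : i2 (5 * (5 * u)) = i2 u := by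
      rw [(mul_cop (by omega) cop5).1, hi5]
    have a2 : KK n (25 * u) + 5 = KK n u := KK25 hu (by omega) h10
    have e : 25 * u = 5 * (5 * u) := by ring
    rw [e] at a2
    rw [a1] at h5
    omega
  · exfalso
    obtain ⟨-, h5, -⟩ := big (by omega) h
    apply h5
    exact ⟨6 * u, hC', by ring⟩
  · exfalso
    obtain ⟨⟨-, -, h5⟩, h11, -⟩ := big (by omega) h
    have a1 : i2 (7 * (5 * u)) = i2 u := by
      rw [(mul_cop (by omega) cop7).1, hi5]
    have a1' : i2 (7 * u) = i2 u := (mul_cop hu cop7).1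
    have e : 7 * (5 * u) = 5 * (7 * u) := by ring
    have a2 := KK7' (n := n) (v := 5 * u) (by omega) h3'
    have a3 := KK7' (n := n) hu (by omega)
    have a4 := KK5' (n := n) (v := 7 * u) (by omega) (by omega)
    rw [← e] at a4
    rw [a1] at h5
    apply h11
    refine ⟨7 * u, ⟨by omega, by omega, by omega, ?_, ?_⟩, e⟩
    · rw [a1']; omega
    · rw [← e]; omega

/-- an element of the set has at most one multiple in the set -/
theorem one_multiple {n w : ℕ} (h : AA n w) :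
    ∃ q0, ∀ q, 2 ≤ q → AA n (q * w) → q = q0 := by
  have hw := AA_pos h
  rcases h with ⟨⟨-, -, h⟩, -, -⟩ | ⟨v, hv, e⟩ | ⟨⟨v, hv, e⟩, hi⟩
  · rcases h with ⟨h1, h2⟩ | ⟨h1, h2, h3, -⟩ | ⟨-, -, h1⟩
    · exact ⟨3, caseP hw h1 h2⟩
    · exact ⟨2, caseN hw h1 h2 h3⟩
    · exact ⟨2, caseO h1⟩
  · obtain ⟨u, rfl⟩ : ∃ u, w = 5 * u := ⟨w / 5, by omega⟩
    have : v = 4 * u := by omega
    subst this
    exact ⟨3, caseD hv⟩
  · obtain ⟨u, rfl⟩ : ∃ u, w = 5 * u := ⟨w / 5, by omega⟩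
    have : v = 6 * u := by omega
    subst this
    exact ⟨2, caseE hv hi⟩

theorem admissible (n : ℕ) (A : Finset ℕ) (hA : ∀ w ∈ A, AA n w) : Admissible A := by
  rintro a ha b hb c hc hab hac hbc ⟨⟨q, rfl⟩, ⟨r, rfl⟩⟩
  obtain ⟨q0, h0⟩ := one_multiple (hA a ha)
  have h1 := hA _ hb
  have h2 := hA _ hc
  rw [mul_comm] at h1 h2
  have p1 := AA_pos h1
  have p2 := AA_pos h2
  have q1 : 2 ≤ q := by
    by_contra hcon
    interval_cases q
    · simp at p1
    · simp at hab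
  have q2 : 2 ≤ r := by
    by_contra hcon
    interval_cases r
    · simp at p2
    · simp at hac
  have := h0 q q1 h1
  have := h0 r q2 h2
  subst_vars
  exact hbc rfl

end Pool.Agent.Helper40.NTM
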