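import Mathlib
import Pool.Agent.Helper90.NoTwoMultiplesLimit
import Pool.Agent.Helper40.NTM.Constr

/-!
# The size of the extremal set
-/

open Finset
open Pool.Agent.Helper90.NoTwoMultiples

namespace Pool.Agent.Helper40.NTM

lemma LL_i2 {n z : ℕ} (h : LL n z) : 1 ≤ i2 z := by
  obtain ⟨v, hv, rfl⟩ := h
  rw [(mul_cop (CC_pos hv) cop5).1]
  exact hv.2.2.1

/-- a conflict is divisible by 3 -/
lemma three_dvd_of_CC {n v : ℕ} (h : CC n v) : 3 ∣ v := by
  have hv := CC_pos h
  obtain ⟨h1, h2, h3, h4, h5⟩ := h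
  apply three_dvd
  by_contra hc
  have hj : j3 v = 0 := by omega
  obtain ⟨e, -⟩ := spec hv
  have hcp := core_pos hv
  rw [hj, pow_zero, mul_one] at e
  have h6 : 5 * 2 ^ i2 v ≤ n / core v := by
    rw [Nat.le_div_iff_mul_le hcp, mul_assoc, e]
    exact h2
  have h7 : n / core v < 6 * 2 ^ i2 v := by
    rw [Nat.div_lt_iff_lt_mul hcp, mul_assoc, e]
    exact h1
  have h8 : Nat.log 2 (n / core v) = i2 v + 2 := by
    rw [Nat.log_eq_iff (Or.inr ⟨by norm_num, by
      have : 0 < 2 ^ i2 v := by positivity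
      omega⟩)]
    have e1 : 2 ^ (i2 v + 2) = 4 * 2 ^ i2 v := by ring
    have e2 : 2 ^ (i2 v + 2 + 1) = 8 * 2 ^ i2 v := by ring
    rw [e1, e2]
    omega
  unfold KK at h4
  rw [h8] at h4
  omega

lemma notA0_4 {n w : ℕ} (h : LL n (4 * w)) : ¬ A0 n w ∧ i2 w % 2 = KK n w % 2 := by
  obtain ⟨v, hv, e⟩ := h
  obtain ⟨u, rfl⟩ : ∃ u, w = 5 * u := ⟨w / 5, by omega⟩
  have : v = 4 * u := by omega
  subst this
  have hu : u ≠ 0 := by rintro rfl; exact CC_pos hv rfl
  obtain ⟨h1, h2, h6, h7, h8⟩ := hv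
  have e4 : 4 * u = 2 * (2 * u) := by ring
  have hi5 : i2 (5 * u) = i2 u := (mul_cop hu cop5).1
  have hi4 : i2 (4 * u) = i2 u + 2 := by
    rw [e4, (mul_two (by omega)).1, (mul_two hu).1]
  have hK4 : KK n (4 * u) = KK n u := by
    rw [e4, KK2 (by omega), KK2 hu]
  have hK20 : KK n (5 * (4 * u)) = KK n (5 * u) := by
    have e : 5 * (4 * u) = 2 * (2 * (5 * u)) := by ring
    rw [e, KK2 (by omega), KK2 (by omega)]
  rw [hi4, hK4] at h7
  rw [hK20, hK4] at h8
  refine ⟨?_, by omega⟩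
  rintro ⟨-, -, h⟩
  omega

lemma notA0_6 {n w : ℕ} (h : LL n (6 * w)) (hi : 1 ≤ i2 w) :
    ¬ A0 n w ∧ i2 w % 2 ≠ KK n w % 2 := by
  obtain ⟨v, hv, e⟩ := h
  obtain ⟨u, rfl⟩ : ∃ u, w = 5 * u := ⟨w / 5, by omega⟩
  have : v = 6 * u := by omega
  subst this
  have hu : u ≠ 0 := by rintro rfl; exact CC_pos hv rfl
  obtain ⟨h1, h2, h6, h7, h8⟩ := hv
  have e6 : 6 * u = 2 * (3 * u) := by ring
  have hi5 : i2 (5 * u) = i2 u := (mul_cop hu cop5).1
  have hi6 : i2 (6 * u) = i2 u + 1 := by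
    rw [e6, (mul_two (by omega)).1, (mul_three hu).1]
  have hK6 : KK n (6 * u) = KK n u := by
    rw [e6, KK2 (by omega), KK3 hu]
  have hK30 : KK n (5 * (6 * u)) = KK n (5 * u) := by
    have e : 5 * (6 * u) = 2 * (3 * (5 * u)) := by ring
    rw [e, KK2 (by omega), KK3 (by omega)]
  rw [hi6, hK6] at h7
  rw [hK30, hK6] at h8
  refine ⟨?_, by omega⟩
  rintro ⟨-, -, h⟩
  omega

open Classical in
/-- the size of the extremal set in terms of the first approximation -/
lemma card_AA (n : ℕ) :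
    ((Icc 1 n).filter (A0 n)).card ≤
      ((Icc 1 n).filter (AA n)).card + ((Icc 1 n).filter (fun z => LL n z ∧ i2 z = 1)).card := by
  set S0 := (Icc 1 n).filter (A0 n) with hS0
  set SL := (Icc 1 n).filter (LL n) with hSL
  set S1 := (Icc 1 n).filter (fun z => LL n z ∧ i2 z = 1) with hS1
  set S2 := (Icc 1 n).filter (fun z => LL n z ∧ i2 z ≠ 1) with hS2
  set R2 := (Icc 1 n).filter (fun w => LL n (2 * w) ∧ 1 ≤ i2 w) with hR2
  set N4 := (Icc 1 n).filter (fun w => LL n (4 * w)) with hN4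
  set N6 := (Icc 1 n).filter (fun w => LL n (6 * w) ∧ 1 ≤ i2 w) with hN6
  set SA := (Icc 1 n).filter (AA n) with hSA
  have a1 : SL.card = S1.card + S2.card := by
    rw [hSL, hS1, hS2, ← filter_filter, ← filter_filter,
      card_filter_add_card_filter_not]
  have a2 : R2.card ≤ S2.card := by
    apply card_le_card_of_injOn (fun w => 2 * w)
    · intro w hw
      rw [hR2, mem_coe, mem_filter, mem_Icc] at hw
      rw [hS2, mem_coe, mem_filter, mem_Icc]
      obtain ⟨⟨h1, h2⟩, h3, h4⟩ := hw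
      beta_reduce
      have h5 := LL_le h3
      refine ⟨⟨by omega, h5⟩, h3, ?_⟩
      have h6 := (mul_two (v := w) (by omega)).1
      omega
    · intro x _ y _ h
      simpa using h
  have a3 : S2.card ≤ N4.card := by
    have : S2 ⊆ N4.image (fun w => 4 * w) := by
      intro z hz
      rw [hS2, mem_filter, mem_Icc] at hz
      obtain ⟨⟨h1, h2⟩, h3, h4⟩ := hz
      have h5 := LL_i2 h3
      obtain ⟨y, rfl⟩ := two_dvd h5
      have hy : y ≠ 0 := by rintro rfl; simp at h1
      rw [(mul_two hy).1] at h4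
      obtain ⟨x, rfl⟩ := two_dvd (v := y) (by omega)
      rw [mem_image]
      refine ⟨x, ?_, by ring⟩
      rw [hN4, mem_filter, mem_Icc]
      refine ⟨⟨by omega, by omega⟩, ?_⟩
      have e : 4 * x = 2 * (2 * x) := by ring
      rw [e]
      exact h3
    exact (card_le_card this).trans card_image_le
  have a4 : S2.card ≤ N6.card := by
    have : S2 ⊆ N6.image (fun w => 6 * w) := by
      intro z hz
      rw [hS2, mem_filter, mem_Icc] at hz
      obtain ⟨⟨h1, h2⟩, h3, h4⟩ := hz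
      have h5 := LL_i2 h3
      obtain ⟨v, hv, e⟩ := id h3
      have h6 := three_dvd_of_CC hv
      have h7 : 3 ∣ z := by rw [e]; exact Dvd.dvd.mul_left h6 5
      obtain ⟨y, rfl⟩ := h7
      have hy : y ≠ 0 := by rintro rfl; simp at h1
      rw [(mul_three hy).1] at h4 h5
      obtain ⟨x, rfl⟩ := two_dvd (v := y) h5
      have hx : x ≠ 0 := by rintro rfl; simp at h1
      rw [(mul_two hx).1] at h4
      rw [mem_image]
      refine ⟨x, ?_, by ring⟩
      rw [hN6, mem_filter, mem_Icc]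
      have e2 : 6 * x = 3 * (2 * x) := by ring
      refine ⟨⟨by omega, by omega⟩, ?_, by omega⟩
      rw [e2]
      exact h3
    exact (card_le_card this).trans card_image_le
  have a5 : (S0 \ SL) \ R2 ⊆ SA := by
    intro w hw
    rw [mem_sdiff, mem_sdiff, hS0, hSL, hR2, mem_filter, mem_filter, mem_filter] at hw
    obtain ⟨⟨⟨h1, h2⟩, h3⟩, h4⟩ := hw
    rw [hSA, mem_filter]
    exact ⟨h1, Or.inl ⟨h2, fun h => h3 ⟨h1, h⟩, fun h => h4 ⟨h1, h⟩⟩⟩
  have a6 : N4 ⊆ SA := by
    intro w hw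
    rw [hN4, mem_filter] at hw
    rw [hSA, mem_filter]
    exact ⟨hw.1, Or.inr (Or.inl hw.2)⟩
  have a7 : N6 ⊆ SA := by
    intro w hw
    rw [hN6, mem_filter] at hw
    rw [hSA, mem_filter]
    exact ⟨hw.1, Or.inr (Or.inr hw.2)⟩
  have d1 : Disjoint ((S0 \ SL) \ R2) N4 := by
    rw [disjoint_left]
    intro w hw hw2
    rw [mem_sdiff, mem_sdiff, hS0, mem_filter] at hw
    rw [hN4, mem_filter] at hw2
    exact (notA0_4 hw2.2).1 hw.1.1.2
  have d2 : Disjoint (((S0 \ SL) \ R2) ∪ N4) N6 := by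
    rw [disjoint_left]
    intro w hw hw2
    rw [hN6, mem_filter] at hw2
    have h6 := notA0_6 hw2.2.1 hw2.2.2
    rw [mem_union] at hw
    rcases hw with hw | hw
    · rw [mem_sdiff, mem_sdiff, hS0, mem_filter] at hw
      exact h6.1 hw.1.1.2
    · rw [hN4, mem_filter] at hw
      exact h6.2 (notA0_4 hw.2).2
  have a8 : (((S0 \ SL) \ R2) ∪ N4 ∪ N6).card ≤ SA.card := by
    apply card_le_card
    exact union_subset (union_subset a5 a6) a7
  rw [card_union_of_disjoint d2, card_union_of_disjoint d1] at a8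
  have a9 : S0.card ≤ ((S0 \ SL) \ R2).card + SL.card + R2.card := by
    have b1 := le_card_sdiff SL S0
    have b2 := le_card_sdiff R2 (S0 \ SL)
    omega
  omega

open Classical in
/-- the loss -/
lemma card_loss (n : ℕ) :
    ((Icc 1 n).filter (fun z => LL n z ∧ i2 z = 1)).card ≤
      ((Icc 1 n).filter (fun m => Nat.Coprime 6 m ∧ InD (n / m))).card := by
  apply card_le_card_of_injOn (fun z => core z / 5)
  · intro z hz
    rw [mem_coe, mem_filter, mem_Icc] at hz
    obtain ⟨⟨h1, h2⟩, ⟨v, hv, rfl⟩, h3⟩ := hz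
    have hv0 := CC_pos hv
    obtain ⟨c1, c2, c3, c4, c5⟩ := hv
    rw [(mul_cop hv0 cop5).1] at h3
    rw [mem_coe, mem_filter, mem_Icc]
    have e : core (5 * v) / 5 = core v := by
      rw [(mul_cop hv0 cop5).2.2]
      omega
    simp only [e]
    have hcp := core_pos hv0
    have hcl := core_le hv0
    refine ⟨⟨hcp, by omega⟩, (spec hv0).2, ?_⟩
    obtain ⟨s1, -⟩ := spec hv0
    rw [h3, pow_one] at s1
    have k1 := KK5' hv0 c2
    have k2 : KK n (5 * v) + 3 = KK n v := by omega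
    obtain ⟨a, ha⟩ : ∃ a, KK n v = 2 * (a + 1) := ⟨KK n v / 2 - 1, by omega⟩
    refine ⟨a, j3 v, ?_, ?_, ?_, ?_⟩
    · have : 2 ^ KK n v ≤ n / core v := by
        unfold KK
        apply Nat.pow_log_le_self
        have := Nat.div_pos (show core v ≤ n by omega) hcp
        omega
      rw [ha, pow_mul] at this
      simpa using this
    · rw [KK5 hv0] at k2
      have : n / core v / 5 < 2 ^ (Nat.log 2 (n / core v / 5) + 1) :=
        Nat.lt_pow_succ_log_self (by norm_num) _
      have e2 : Nat.log 2 (n / core v / 5) + 1 = 2 * a := by omega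
      rw [e2, pow_mul] at this
      norm_num at this
      omega
    · rw [Nat.le_div_iff_mul_le hcp]
      calc 10 * 3 ^ j3 v * core v = 5 * (2 * 3 ^ j3 v * core v) := by ring
        _ = 5 * v := by rw [s1]
        _ ≤ n := c2
    · rw [Nat.div_lt_iff_lt_mul hcp]
      calc n < 6 * v := c1
        _ = 6 * (2 * 3 ^ j3 v * core v) := by rw [s1]
        _ = 12 * 3 ^ j3 v * core v := by ring
  · intro z hz z' hz' h
    rw [mem_coe, mem_filter, mem_Icc] at hz hz'
    obtain ⟨⟨h1, h2⟩, ⟨v, hv, rfl⟩, h3⟩ := hz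
    obtain ⟨⟨h1', h2'⟩, ⟨v', hv', rfl⟩, h3'⟩ := hz'
    have hv0 := CC_pos hv
    have hv0' := CC_pos hv'
    rw [(mul_cop hv0 cop5).1] at h3
    rw [(mul_cop hv0' cop5).1] at h3'
    simp only [(mul_cop hv0 cop5).2.2, (mul_cop hv0' cop5).2.2] at h
    have h4 : core v = core v' := by omega
    obtain ⟨s1, -⟩ := spec hv0
    obtain ⟨s2, -⟩ := spec hv0'
    rw [h3] at s1
    rw [h3', ← h4] at s2
    have c1 := hv.1
    have c2 := hv.2.1
    have c1' := hv'.1
    have c2' := hv'.2.1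
    have h5 : j3 v = j3 v' := by
      by_contra hne
      rcases lt_or_gt_of_ne hne with hlt | hlt
      · have : 3 ^ (j3 v + 1) ≤ 3 ^ j3 v' := Nat.pow_le_pow_right (by norm_num) hlt
        have : 3 * v ≤ v' := by
          calc 3 * v = 2 ^ 1 * 3 ^ (j3 v + 1) * core v := by
                conv_lhs => rw [← s1]
                ring
            _ ≤ 2 ^ 1 * 3 ^ j3 v' * core v := by gcongr
            _ = v' := s2
        omega
      · have : 3 ^ (j3 v' + 1) ≤ 3 ^ j3 v := Nat.pow_le_pow_right (by norm_num) hlt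
        have : 3 * v' ≤ v := by
          calc 3 * v' = 2 ^ 1 * 3 ^ (j3 v' + 1) * core v := by
                conv_lhs => rw [← s2]
                ring
            _ ≤ 2 ^ 1 * 3 ^ j3 v * core v := by gcongr
            _ = v := s1
        omega
    rw [h5] at s1
    rw [show v = v' from s1.symm.trans s2]

end Pool.Agent.Helper40.NTM
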