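import Mathlib
import Pool.Agent.Helper90.NoTwoMultiplesLimit
import Pool.Agent.Helper40.NTM.Count

/-!
# The lower bound
-/

open Finset
open Pool.Agent.Helper90.NoTwoMultiples

namespace Pool.Agent.Helper40.NTM

lemma exists_log {q b : ℕ} (hb : 1 < b) (h : q ≠ 0) : ∃ k, b ^ k ≤ q ∧ q < b ^ (k + 1) :=
  ⟨Nat.log b q, Nat.pow_log_le_self b h, Nat.lt_pow_succ_log_self hb _⟩

/-- membership in the first approximation in terms of `q = n / m` -/
lemma A0_iff {n m i j : ℕ} (hm : Nat.Coprime 6 m) :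
    A0 n (2 ^ i * 3 ^ j * m) ↔ 2 ^ i * 3 ^ j ≤ n / m ∧
      ((i % 2 = Nat.log 2 (n / m) % 2 ∧ n / m < 4 * (2 ^ i * 3 ^ j)) ∨
       (i % 2 ≠ Nat.log 2 (n / m) % 2 ∧ 1 ≤ i ∧ n / m < 6 * (2 ^ i * 3 ^ j) ∧
          2 * (2 ^ i * 3 ^ j) ≤ n / m) ∨
       (i = 0 ∧ Nat.log 2 (n / m) % 2 = 1 ∧ n / m < 3 * (2 ^ i * 3 ^ j))) := by
  have hm0 : 0 < m := Nat.pos_of_ne_zero (cop6 hm).1
  unfold A0 KK
  rw [uniq_i hm, uniq_c hm]
  have e1 : 1 ≤ 2 ^ i * 3 ^ j * m := Nat.one_le_iff_ne_zero.mpr (by positivity)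
  have e2 : 2 ^ i * 3 ^ j * m ≤ n ↔ 2 ^ i * 3 ^ j ≤ n / m := (Nat.le_div_iff_mul_le hm0).symm
  have e3 : ∀ r, n < r * (2 ^ i * 3 ^ j * m) ↔ n / m < r * (2 ^ i * 3 ^ j) := by
    intro r
    rw [Nat.div_lt_iff_lt_mul hm0]
    ring_nf
  have e4 : 2 * (2 ^ i * 3 ^ j * m) ≤ n ↔ 2 * (2 ^ i * 3 ^ j) ≤ n / m := by
    rw [Nat.le_div_iff_mul_le hm0]
    ring_nf
  rw [e2, e3, e3, e3, e4]
  tauto

lemma filter_parity_card (K : ℕ) : (K + 1) / 2 = ((range K).filter (fun i => i % 2 ≠ K % 2)).card := by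
  induction K using Nat.strong_induction_on with
  | _ K ih =>
    rcases K with _ | _ | K
    · simp
    · rfl
    · have h1 := ih K (by omega)
      have e : ((range (K + 1 + 1)).filter (fun i => i % 2 ≠ (K + 1 + 1) % 2)).card =
          ((range K).filter (fun i => i % 2 ≠ K % 2)).card + 1 := by
        rw [range_add_one, range_add_one, filter_insert, filter_insert]
        have a1 : ((K + 1) % 2 ≠ (K + 1 + 1) % 2) := by omega
        have a2 : ¬ (K % 2 ≠ (K + 1 + 1) % 2) := by omega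
        rw [if_pos a1, if_neg a2, card_insert_of_notMem]
        · congr 2
          apply filter_congr
          intro x _
          have : (K + 1 + 1) % 2 = K % 2 := by omega
          rw [this]
        · simp
      rw [e, ← h1]
      omega

open Classical in
/-- the count in one column -/
lemma column (n m : ℕ) (hm : Nat.Coprime 6 m) (hmn : m ≤ n) :
    hh (n / m) ≤ ((Icc 1 n).filter (fun v => A0 n v ∧ core v = m)).card := by
  have hm0 : 0 < m := Nat.pos_of_ne_zero (cop6 hm).1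
  set q := n / m with hq
  have hq0 : q ≠ 0 := by
    have := Nat.div_pos hmn hm0
    omega
  set K := Nat.log 2 q with hK
  set J := Nat.log 3 q with hJ
  have hK1 : 2 ^ K ≤ q := Nat.pow_log_le_self 2 hq0
  have hK2 : q < 2 ^ (K + 1) := Nat.lt_pow_succ_log_self (by norm_num) _
  have hJ1 : 3 ^ J ≤ q := Nat.pow_log_le_self 3 hq0
  have hJ2 : q < 3 ^ (J + 1) := Nat.lt_pow_succ_log_self (by norm_num) _
  set F := (Icc 1 n).filter (fun v => A0 n v ∧ core v = m) with hF
  have mem : ∀ i j, A0 n (2 ^ i * 3 ^ j * m) → 2 ^ i * 3 ^ j * m ∈ F := by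
    intro i j h
    rw [hF, mem_filter, mem_Icc]
    exact ⟨⟨h.1, h.2.1⟩, h, uniq_c hm⟩
  set P := F.filter (fun v => i2 v % 2 = K % 2) with hP
  set N := F.filter (fun v => ¬ (i2 v % 2 = K % 2)) with hN
  have hcard : F.card = P.card + N.card := by
    rw [hP, hN, card_filter_add_card_filter_not]
  -- rows
  have rowP : ∀ j, 2 * 3 ^ j ≤ q ∨ (3 ^ j ≤ q ∧ K % 2 = 0) → ∃ v ∈ P, j3 v = j := by
    intro j hj
    have h1 : q / 3 ^ j ≠ 0 := by
      have : 3 ^ j ≤ q := by
        rcases hj with h | h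
        · have : 0 < 3 ^ j := by positivity
          omega
        · exact h.1
      have := Nat.div_pos this (by positivity)
      omega
    obtain ⟨k, hk1, hk2⟩ := exists_log (b := 2) (by norm_num) h1
    rw [Nat.le_div_iff_mul_le (by positivity)] at hk1
    rw [Nat.div_lt_iff_lt_mul (by positivity)] at hk2
    have hk2' : q < 2 * (2 ^ k * 3 ^ j) := by
      calc q < 2 ^ (k + 1) * 3 ^ j := hk2
        _ = _ := by ring
    by_cases hkK : k % 2 = K % 2
    · have hA : A0 n (2 ^ k * 3 ^ j * m) := by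
        rw [A0_iff hm]
        exact ⟨hk1, Or.inl ⟨hkK, by omega⟩⟩
      refine ⟨2 ^ k * 3 ^ j * m, ?_, uniq_j hm⟩
      rw [hP, mem_filter]
      exact ⟨mem _ _ hA, by rw [uniq_i hm]; exact hkK⟩
    · -- k ≥ 1
      have hk : 1 ≤ k := by
        by_contra hc
        have hk0 : k = 0 := by omega
        subst hk0
        rcases hj with h | h
        · simp at hk2'
          omega
        · omega
      obtain ⟨k, rfl⟩ : ∃ l, k = l + 1 := ⟨k - 1, by omega⟩
      have e : 2 ^ (k + 1) * 3 ^ j = 2 * (2 ^ k * 3 ^ j) := by ring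
      rw [e] at hk1 hk2'
      have hkK' : k % 2 = K % 2 := by omega
      have hA : A0 n (2 ^ k * 3 ^ j * m) := by
        rw [A0_iff hm]
        exact ⟨by omega, Or.inl ⟨hkK', by omega⟩⟩
      refine ⟨2 ^ k * 3 ^ j * m, ?_, uniq_j hm⟩
      rw [hP, mem_filter]
      exact ⟨mem _ _ hA, by rw [uniq_i hm]; exact hkK'⟩
  -- exponents
  have expN : ∀ i, i < K → i % 2 ≠ K % 2 → ∃ v ∈ N, i2 v = i := by
    intro i hi hiK
    rcases Nat.eq_zero_or_pos i with h0 | h0
    · subst h0
      have hA : A0 n (2 ^ 0 * 3 ^ J * m) := by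
        rw [A0_iff hm]
        refine ⟨by simpa using hJ1, Or.inr (Or.inr ⟨rfl, ?_, ?_⟩)⟩
        · have : K % 2 = 1 := by omega
          exact this
        · calc n / m = q := rfl
            _ < 3 ^ (J + 1) := hJ2
            _ = 3 * (2 ^ 0 * 3 ^ J) := by ring
      refine ⟨2 ^ 0 * 3 ^ J * m, ?_, uniq_i hm⟩
      rw [hN, mem_filter]
      exact ⟨mem _ _ hA, by rw [uniq_i hm]; exact hiK⟩
    · have h1 : q / 2 ^ (i + 1) ≠ 0 := by
        have : 2 ^ (i + 1) ≤ q := (Nat.pow_le_pow_right (by norm_num) hi).trans hK1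
        have := Nat.div_pos this (by positivity)
        omega
      obtain ⟨j, hj1, hj2⟩ := exists_log (b := 3) (by norm_num) h1
      rw [Nat.le_div_iff_mul_le (by positivity)] at hj1
      rw [Nat.div_lt_iff_lt_mul (by positivity)] at hj2
      have e1 : 3 ^ j * 2 ^ (i + 1) = 2 * (2 ^ i * 3 ^ j) := by ring
      have e2 : 3 ^ (j + 1) * 2 ^ (i + 1) = 6 * (2 ^ i * 3 ^ j) := by ring
      rw [e1] at hj1
      rw [e2] at hj2
      have hA : A0 n (2 ^ i * 3 ^ j * m) := by
        rw [A0_iff hm]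
        exact ⟨by omega, Or.inr (Or.inl ⟨hiK, h0, hj2, hj1⟩)⟩
      refine ⟨2 ^ i * 3 ^ j * m, ?_, uniq_i hm⟩
      rw [hN, mem_filter]
      exact ⟨mem _ _ hA, by rw [uniq_i hm]; exact hiK⟩
  have cN : (K + 1) / 2 ≤ N.card := by
    rw [filter_parity_card]
    have : (range K).filter (fun i => i % 2 ≠ K % 2) ⊆ N.image i2 := by
      intro i hi
      rw [mem_filter, mem_range] at hi
      obtain ⟨v, hv, rfl⟩ := expN i hi.1 hi.2
      exact mem_image_of_mem _ hv
    exact (card_le_card this).trans card_image_le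
  have cP : ∀ R, (∀ j, j < R → 2 * 3 ^ j ≤ q ∨ (3 ^ j ≤ q ∧ K % 2 = 0)) → R ≤ P.card := by
    intro R hR
    have : range R ⊆ P.image j3 := by
      intro j hj
      obtain ⟨v, hv, rfl⟩ := rowP j (hR j (mem_range.mp hj))
      exact mem_image_of_mem _ hv
    have h2 := (card_le_card this).trans card_image_le
    rwa [card_range] at h2
  have cJ : J ≤ P.card := by
    apply cP
    intro j hj
    left
    calc 2 * 3 ^ j ≤ 3 ^ (j + 1) := by rw [pow_succ]; omega
      _ ≤ 3 ^ J := Nat.pow_le_pow_right (by norm_num) hj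
      _ ≤ q := hJ1
  have cJ' : (K % 2 = 0 ∨ 2 * 3 ^ J ≤ q) → J + 1 ≤ P.card := by
    intro h
    apply cP
    intro j hj
    rcases Nat.lt_or_ge j J with h2 | h2
    · left
      calc 2 * 3 ^ j ≤ 3 ^ (j + 1) := by rw [pow_succ]; omega
        _ ≤ 3 ^ J := Nat.pow_le_pow_right (by norm_num) h2
        _ ≤ q := hJ1
    · have : j = J := by omega
      subst this
      rcases h with h | h
      · exact Or.inr ⟨hJ1, h⟩
      · exact Or.inl h
  unfold hh
  rw [if_neg hq0, ← hK, ← hJ]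
  split_ifs with h
  · have := cJ' (Or.inr h.2)
    omega
  · by_cases hK3 : K % 2 = 0
    · have := cJ' (Or.inl hK3)
      omega
    · omega

open Classical in
/-- the size of the first approximation -/
lemma card_A0 (n : ℕ) :
    ∑ m ∈ (Icc 1 n).filter (fun m => Nat.Coprime 6 m), hh (n / m) ≤
      ((Icc 1 n).filter (A0 n)).card := by
  have h1 : ∀ v ∈ (Icc 1 n).filter (A0 n), core v ∈ (Icc 1 n).filter (fun m => Nat.Coprime 6 m) := by
    intro v hv
    rw [mem_filter, mem_Icc] at hv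
    have hv0 : v ≠ 0 := by omega
    rw [mem_filter, mem_Icc]
    have := core_le hv0
    have := core_pos hv0
    exact ⟨⟨by omega, by omega⟩, (spec hv0).2⟩
  rw [card_eq_sum_card_fiberwise h1]
  apply sum_le_sum
  intro m hm
  rw [mem_filter, mem_Icc] at hm
  have := column n m hm.2 hm.1.2
  rwa [filter_filter]

/-- **Lower bound.** -/
theorem lower (n : ℕ) :
    ∑ m ∈ (Icc 1 n).filter (fun m => Nat.Coprime 6 m), hh (n / m) ≤
      f n + ((Icc 1 n).filter (fun m => Nat.Coprime 6 m ∧ InD (n / m))).card := by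
  classical
  have h1 := card_A0 n
  have h2 := card_AA n
  have h3 := card_loss n
  have h4 : ((Icc 1 n).filter (AA n)).card ≤ f n := by
    apply le_maxAdm (filter_subset _ _)
    apply admissible n
    intro w hw
    rw [mem_filter] at hw
    exact hw.2
  exact (h1.trans h2).trans (Nat.add_le_add h4 h3)

end Pool.Agent.Helper40.NTM
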